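import Mathlib

set_option autoImplicit false

namespace Pool.Agent.Results.MP_08c285_gt.SingularNotNormal

open Cardinal Set Pointwise

universe u

/-! ### The ballean of a group determined by the small subsets -/

section Defs

variable {G : Type u} [Group G]

/-- `E_A = {(x, y) : y ∈ x A}`. -/
def entourage (A : Set G) : Set (G × G) := {p | ∃ a ∈ A, p.2 = p.1 * a}

variable (G) in
/-- The coarse structure `𝓔_κ`, `κ = |G|`: all `E ⊆ E_A` with `|A| < |G|`, `1 ∈ A`, `A = A⁻¹`. -/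
def entourages : Set (Set (G × G)) :=
  {E | ∃ A : Set G, #A < #G ∧ (1 : G) ∈ A ∧ A = A⁻¹ ∧ E ⊆ entourage A}

/-- `E[S] = {y : ∃ x ∈ S, (x, y) ∈ E}`. -/
def ball (E : Set (G × G)) (S : Set G) : Set G := {y | ∃ x ∈ S, (x, y) ∈ E}

/-- A subset is bounded if its cardinality is less than `|G|`. -/
def Bounded (S : Set G) : Prop := #S < #G

/-- `P` and `Q` are asymptotically disjoint. -/
def AsymptoticallyDisjoint (P Q : Set G) : Prop :=
  ∀ E ∈ entourages G, Bounded (ball E P ∩ ball E Q)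

/-- `U` is an asymptotic neighbourhood of `P`. -/
def IsAsymptoticNeighbourhood (U P : Set G) : Prop :=
  ∀ E ∈ entourages G, Bounded (ball E P \ U)

variable (G) in
/-- The ballean `(G, 𝓔_κ)` is normal. -/
def NormalBallean : Prop :=
  ∀ P Q : Set G, AsymptoticallyDisjoint P Q → ∃ U V : Set G,
    IsAsymptoticNeighbourhood U P ∧ IsAsymptoticNeighbourhood V Q ∧ AsymptoticallyDisjoint U V

end Defs

/-! ### Set-theoretic lemmas -/

/-- A singular cardinal is the supremum of fewer than `κ` smaller cardinals. -/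
lemma exists_small_cofinal {κ : Cardinal.{u}} (hκ : κ.ord.cof < κ) :
    ∃ (ι : Type u) (k : ι → Cardinal.{u}), #ι < κ ∧ (∀ i, k i < κ) ∧
      ∀ l < κ, ∃ i, l ≤ k i := by
  obtain ⟨S, hS, hcard⟩ := Order.exists_cof_eq κ.ord.ToType
  rw [Ordinal.cof_toType] at hcard
  refine ⟨S, fun w => ((Ordinal.ToType.mk.symm (w : κ.ord.ToType) : Set.Iio κ.ord) :
    Ordinal.{u}).card, by rw [hcard]; exact hκ, fun w => ?_, fun l hl => ?_⟩
  · have := (Ordinal.ToType.mk.symm (w : κ.ord.ToType)).2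
    exact Cardinal.lt_ord.1 this
  · have hl' : l.ord < κ.ord := Cardinal.ord_lt_ord.2 hl
    obtain ⟨w, hw, hvw⟩ := hS (Ordinal.ToType.mk ⟨l.ord, hl'⟩)
    refine ⟨⟨w, hw⟩, ?_⟩
    have h1 : (⟨l.ord, hl'⟩ : Set.Iio κ.ord) ≤ Ordinal.ToType.mk.symm w := by
      rw [← Ordinal.ToType.mk.le_iff_le]
      simpa using hvw
    have h2 : l.ord ≤ ((Ordinal.ToType.mk.symm w : Set.Iio κ.ord) : Ordinal.{u}) := h1
    have h3 := Ordinal.card_le_card h2
    rwa [Cardinal.card_ord] at h3

/-- Transfinite recursion avoiding small forbidden sets. -/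
lemma exists_avoiding {W : Type u} [LinearOrder W] [WellFoundedLT W] {X : Type u} [Nonempty X]
    (bad : W → (W → X) → Set X)
    (hcongr : ∀ (s : W) (f g : W → X), (∀ t < s, f t = g t) → bad s f = bad s g)
    (hsmall : ∀ s f, #(bad s f) < #X) :
    ∃ f : W → X, ∀ s, f s ∉ bad s f := by
  classical
  have hne : ∀ s (f : W → X), ∃ x, x ∉ bad s f := by
    intro s f
    by_contra hcon
    push Not at hcon
    have : bad s f = Set.univ := Set.eq_univ_of_forall hcon
    have h := hsmall s f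
    rw [this, mk_univ] at h
    exact lt_irrefl _ h
  let x0 : X := Classical.arbitrary X
  let F : (s : W) → ((t : W) → t < s → X) → X := fun s ih =>
    Classical.choose (hne s (fun t => if h : t < s then ih t h else x0))
  have hwf : WellFounded ((· < ·) : W → W → Prop) := wellFounded_lt
  let f : W → X := hwf.fix F
  refine ⟨f, fun s => ?_⟩
  have hf : f s = F s (fun t _ => f t) := hwf.fix_eq F s
  have hspec := Classical.choose_spec (hne s (fun t => if h : t < s then f t else x0))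
  have hb : bad s f = bad s (fun t => if h : t < s then f t else x0) := by
    apply hcongr
    intro t ht
    simp [ht]
  rw [hb, hf]
  exact hspec

section Construction

lemma mk_Iio_lt' {c : Cardinal.{u}} (s : c.ord.ToType) : #(Iio s) < c := by
  have h := Cardinal.mk_Iio_lt s (by rw [Cardinal.mk_toType, Cardinal.card_ord,
    Ordinal.type_toType])
  rwa [Cardinal.mk_toType, Cardinal.card_ord] at h

lemma mk_triple_lt {G : Type u} [Infinite G] {s : (#G).ord.ToType} :
    #(Iio s × Iio s × Iio s) < #G := by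
  have h : #(Iio s) < #G := mk_Iio_lt' s
  have hG : ℵ₀ ≤ #G := Cardinal.aleph0_le_mk G
  rw [Cardinal.mk_prod, Cardinal.mk_prod]
  simp only [Cardinal.lift_id]
  exact Cardinal.mul_lt_of_lt hG h (Cardinal.mul_lt_of_lt hG h h)

variable {G : Type u} [Group G] [Infinite G]

/-- There are `a, b : G → G` such that all the elements `a g * (b h)⁻¹` are different. -/
lemma exists_labels : ∃ a b : G → G, Function.Injective (fun p : G × G => a p.1 * (b p.2)⁻¹) := by
  have hG : ℵ₀ ≤ #G := Cardinal.aleph0_le_mk G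
  let W : Type u := (#G).ord.ToType
  let bad : W → (W → G) → Set G := fun s f =>
    Set.range (fun p : Iio s × Iio s × Iio s => f p.1 * ((f p.2.1)⁻¹ * f p.2.2))
  obtain ⟨c, hc⟩ := exists_avoiding (W := W) (X := G) bad
    (by
      intro s f g hfg
      have : (fun p : Iio s × Iio s × Iio s => f p.1 * ((f p.2.1)⁻¹ * f p.2.2)) =
          (fun p : Iio s × Iio s × Iio s => g p.1 * ((g p.2.1)⁻¹ * g p.2.2)) := by
        funext p
        rw [hfg _ p.1.2, hfg _ p.2.1.2, hfg _ p.2.2.2]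
      simp only [bad, this])
    (by
      intro s f
      exact lt_of_le_of_lt Cardinal.mk_range_le mk_triple_lt)
  have hc' : ∀ s t u v : W, t < s → u < s → v < s → c s ≠ c t * ((c u)⁻¹ * c v) := by
    intro s t u v ht hu hv h
    exact hc s ⟨(⟨t, ht⟩, ⟨u, hu⟩, ⟨v, hv⟩), h.symm⟩
  have hinj : Function.Injective c := by
    intro s t hst
    by_contra hne
    rcases lt_or_gt_of_ne hne with h | h
    · exact hc' t s s s h h h (by rw [inv_mul_cancel, mul_one]; exact hst.symm)
    · exact hc' s t t t h h h (by rw [inv_mul_cancel, mul_one]; exact hst)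
  have hcard : #(G ⊕ G) = #W := by
    rw [Cardinal.mk_sum]
    simp only [Cardinal.lift_id]
    rw [Cardinal.add_eq_self hG]
    simp [W]
  obtain ⟨e⟩ := Cardinal.eq.1 hcard
  refine ⟨fun g => c (e (Sum.inl g)), fun g => c (e (Sum.inr g)), ?_⟩
  rintro ⟨g₁, h₁⟩ ⟨g₂, h₂⟩ heq
  change c (e (Sum.inl g₁)) * (c (e (Sum.inr h₁)))⁻¹ =
    c (e (Sum.inl g₂)) * (c (e (Sum.inr h₂)))⁻¹ at heq
  have hx : ∀ g h : G, e (Sum.inl g) ≠ e (Sum.inr h) := by
    intro g h hh
    have := e.injective hh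
    simp at this
  by_cases hg : g₁ = g₂
  · subst hg
    have h1 := mul_left_cancel heq
    have h2 := hinj (inv_injective h1)
    have h3 := e.injective h2
    rw [Sum.inr.injEq] at h3
    rw [h3]
  by_cases hh : h₁ = h₂
  · subst hh
    have h1 := mul_right_cancel heq
    have h2 := hinj h1
    have h3 := e.injective h2
    rw [Sum.inl.injEq] at h3
    rw [h3]
  exfalso
  have hx12 : e (Sum.inl g₁) ≠ e (Sum.inl g₂) := by
    intro h
    have := e.injective h
    rw [Sum.inl.injEq] at this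
    exact hg this
  have hy12 : e (Sum.inr h₁) ≠ e (Sum.inr h₂) := by
    intro h
    have := e.injective h
    rw [Sum.inr.injEq] at this
    exact hh this
  have hx11 := hx g₁ h₁
  have hx12' := hx g₁ h₂
  have hx21 := hx g₂ h₁
  have hx22 := hx g₂ h₂
  generalize e (Sum.inl g₁) = s₁ at *
  generalize e (Sum.inl g₂) = s₂ at *
  generalize e (Sum.inr h₁) = t₁ at *
  generalize e (Sum.inr h₂) = t₂ at *
  have e1 : c s₁ = c s₂ * ((c t₂)⁻¹ * c t₁) := by
    rw [← mul_assoc, ← heq]; group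
  have e2 : c s₂ = c s₁ * ((c t₁)⁻¹ * c t₂) := by
    rw [← mul_assoc, heq]; group
  have e3 : c t₁ = c t₂ * ((c s₂)⁻¹ * c s₁) := by
    rw [e1]; group
  have e4 : c t₂ = c t₁ * ((c s₁)⁻¹ * c s₂) := by
    rw [e2]; group
  rcases lt_or_gt_of_ne hx12 with a | a
  · rcases lt_or_gt_of_ne hy12 with b | b
    · rcases lt_or_gt_of_ne hx22 with f | f
      · exact hc' _ _ _ _ b (a.trans f) f e4
      · exact hc' _ _ _ _ a (b.trans f) f e2
    · rcases lt_or_gt_of_ne hx21 with f | f
      · exact hc' _ _ _ _ b f (a.trans f) e3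
      · exact hc' _ _ _ _ a f (b.trans f) e2
  · rcases lt_or_gt_of_ne hy12 with b | b
    · rcases lt_or_gt_of_ne hx12' with f | f
      · exact hc' _ _ _ _ b f (a.trans f) e4
      · exact hc' _ _ _ _ a f (b.trans f) e1
    · rcases lt_or_gt_of_ne hx11 with f | f
      · exact hc' _ _ _ _ b (a.trans f) f e3
      · exact hc' _ _ _ _ a (b.trans f) f e1

/-- The main construction: points `x (g, h)` with `x (g, h) * (a g)⁻¹ ∈ P`,
`x (g, h) * (b h)⁻¹ ∈ Q` such that every element of `G` has only finitely many representations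
`p⁻¹ * q` with `p ∈ P`, `q ∈ Q`. -/
lemma main_construction : ∃ (a b : G → G) (x : G × G → G), Function.Injective x ∧
    ∀ γ : G, {z : (G × G) × (G × G) |
      (x z.1 * (a z.1.1)⁻¹)⁻¹ * (x z.2 * (b z.2.2)⁻¹) = γ}.Finite := by
  have hG : ℵ₀ ≤ #G := Cardinal.aleph0_le_mk G
  obtain ⟨a, b, hab⟩ := exists_labels (G := G)
  let W : Type u := (#G).ord.ToType
  have hcard : #W = #(G × G) := by
    rw [Cardinal.mk_prod]
    simp only [Cardinal.lift_id]
    rw [Cardinal.mul_eq_self hG]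
    simp [W]
  obtain ⟨e⟩ := Cardinal.eq.1 hcard
  -- the labels of the step `s`
  let A : W → G := fun s => a (e s).1
  let B : W → G := fun s => b (e s).2
  have hAB : Function.Injective (fun s => A s * (B s)⁻¹) := hab.comp e.injective
  let bad : W → (W → G) → Set G := fun s f =>
    (Set.range (fun p : Iio s × Iio s × Iio s =>
      f p.1 * (B p.1)⁻¹ * (f p.2.1 * (B p.2.1)⁻¹)⁻¹ * (f p.2.2 * (A p.2.2)⁻¹) * A s) ∪
    Set.range (fun p : Iio s × Iio s × Iio s =>
      f p.1 * (A p.1)⁻¹ * (f p.2.1 * (A p.2.1)⁻¹)⁻¹ * (f p.2.2 * (B p.2.2)⁻¹) * B s)) ∪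
    Set.range (fun t : Iio s => f t)
  obtain ⟨f, hf⟩ := exists_avoiding (W := W) (X := G) bad
    (by
      intro s f g hfg
      have h1 : (fun p : Iio s × Iio s × Iio s =>
          f p.1 * (B p.1)⁻¹ * (f p.2.1 * (B p.2.1)⁻¹)⁻¹ * (f p.2.2 * (A p.2.2)⁻¹) * A s) =
          (fun p : Iio s × Iio s × Iio s =>
          g p.1 * (B p.1)⁻¹ * (g p.2.1 * (B p.2.1)⁻¹)⁻¹ * (g p.2.2 * (A p.2.2)⁻¹) * A s) := by
        funext p
        rw [hfg _ p.1.2, hfg _ p.2.1.2, hfg _ p.2.2.2]
      have h2 : (fun p : Iio s × Iio s × Iio s =>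
          f p.1 * (A p.1)⁻¹ * (f p.2.1 * (A p.2.1)⁻¹)⁻¹ * (f p.2.2 * (B p.2.2)⁻¹) * B s) =
          (fun p : Iio s × Iio s × Iio s =>
          g p.1 * (A p.1)⁻¹ * (g p.2.1 * (A p.2.1)⁻¹)⁻¹ * (g p.2.2 * (B p.2.2)⁻¹) * B s) := by
        funext p
        rw [hfg _ p.1.2, hfg _ p.2.1.2, hfg _ p.2.2.2]
      have h3 : (fun t : Iio s => f t) = (fun t : Iio s => g t) := by
        funext t
        exact hfg _ t.2
      simp only [bad, h1, h2, h3])
    (by
      intro s f
      have h0 : #(Iio s) < #G := mk_Iio_lt' s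
      refine lt_of_le_of_lt (Cardinal.mk_union_le _ _) (Cardinal.add_lt_of_lt hG
        (lt_of_le_of_lt (Cardinal.mk_union_le _ _) (Cardinal.add_lt_of_lt hG ?_ ?_)) ?_)
      · exact lt_of_le_of_lt Cardinal.mk_range_le mk_triple_lt
      · exact lt_of_le_of_lt Cardinal.mk_range_le mk_triple_lt
      · exact lt_of_le_of_lt Cardinal.mk_range_le h0)
  -- the elements of `P` and `Q` of step `s`
  set p : W → G := fun s => f s * (A s)⁻¹ with hp
  set q : W → G := fun s => f s * (B s)⁻¹ with hq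
  have hf1 : ∀ s t u v, t < s → u < s → v < s → f s ≠ q t * (q v)⁻¹ * p u * A s := by
    intro s t u v ht hu hv h
    exact hf s (Or.inl (Or.inl ⟨(⟨t, ht⟩, ⟨v, hv⟩, ⟨u, hu⟩), h.symm⟩))
  have hf2 : ∀ s t u v, t < s → u < s → v < s → f s ≠ p t * (p u)⁻¹ * q v * B s := by
    intro s t u v ht hu hv h
    exact hf s (Or.inl (Or.inr ⟨(⟨t, ht⟩, ⟨u, hu⟩, ⟨v, hv⟩), h.symm⟩))
  have hf3 : ∀ s t, t < s → f s ≠ f t := by
    intro s t ht h
    exact hf s (Or.inr ⟨⟨t, ht⟩, h.symm⟩)
  have hfs : ∀ s, f s = p s * A s := fun s => by simp [hp]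
  have hfs' : ∀ s, f s = q s * B s := fun s => by simp [hq]
  have hfinj : Function.Injective f := by
    intro s t hst
    by_contra hne
    rcases lt_or_gt_of_ne hne with h | h
    · exact hf3 _ _ h hst.symm
    · exact hf3 _ _ h hst
  have hpinj : Function.Injective p := by
    intro s t hst
    by_contra hne
    rcases lt_or_gt_of_ne hne with h | h
    · exact hf1 t s s s h h h (by rw [mul_inv_cancel, one_mul, hst, ← hfs])
    · exact hf1 s t t t h h h (by rw [mul_inv_cancel, one_mul, ← hst, ← hfs])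
  have hqinj : Function.Injective q := by
    intro s t hst
    by_contra hne
    rcases lt_or_gt_of_ne hne with h | h
    · exact hf2 t s s s h h h (by rw [mul_inv_cancel, one_mul, hst, ← hfs'])
    · exact hf2 s t t t h h h (by rw [mul_inv_cancel, one_mul, ← hst, ← hfs'])
  have hf1' : ∀ s t u v, t < s → u < s → v < s → (p s)⁻¹ * q t ≠ (p u)⁻¹ * q v := by
    intro s t u v ht hu hv h
    apply hf1 s t u v ht hu hv
    rw [hfs s]
    have : p s = q t * (q v)⁻¹ * p u := by
      have h2 : q t = p s * ((p u)⁻¹ * q v) := by rw [← h]; group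
      rw [h2]; group
    rw [this]
  have hf2' : ∀ s t u v, t < s → u < s → v < s → (p t)⁻¹ * q s ≠ (p u)⁻¹ * q v := by
    intro s t u v ht hu hv h
    apply hf2 s t u v ht hu hv
    rw [hfs' s]
    have : q s = p t * (p u)⁻¹ * q v := by
      have h2 : q s = p t * ((p u)⁻¹ * q v) := by rw [← h]; group
      rw [h2]; group
    rw [this]
  refine ⟨a, b, f ∘ e.symm, hfinj.comp e.symm.injective, fun γ => ?_⟩
  -- pass to pairs of steps
  have hfin : {z : W × W | (p z.1)⁻¹ * q z.2 = γ}.Finite := by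
    have h1 : {z : W × W | (p z.1)⁻¹ * q z.2 = γ ∧ z.1 = z.2}.Subsingleton := by
      rintro ⟨s, t⟩ ⟨h, rfl : s = t⟩ ⟨s', t'⟩ ⟨h', rfl : s' = t'⟩
      change (p s)⁻¹ * q s = γ at h
      change (p s')⁻¹ * q s' = γ at h'
      have : A s * (B s)⁻¹ = A s' * (B s')⁻¹ := by
        have e1 : (p s)⁻¹ * q s = A s * (B s)⁻¹ := by simp only [hp, hq]; group
        have e2 : (p s')⁻¹ * q s' = A s' * (B s')⁻¹ := by simp only [hp, hq]; group
        rw [← e1, ← e2, h, h']
      have := hAB this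
      rw [this]
    have h2 : {z : W × W | (p z.1)⁻¹ * q z.2 = γ ∧ z.2 < z.1}.Subsingleton := by
      rintro ⟨s, t⟩ ⟨h, hlt : t < s⟩ ⟨s', t'⟩ ⟨h', hlt' : t' < s'⟩
      change (p s)⁻¹ * q t = γ at h
      change (p s')⁻¹ * q t' = γ at h'
      have hss : s = s' := by
        by_contra hne
        rcases lt_or_gt_of_ne hne with k | k
        · exact hf1' s' t' s t hlt' k (hlt.trans k) (by rw [h, h'])
        · exact hf1' s t s' t' hlt k (hlt'.trans k) (by rw [h, h'])
      subst hss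
      have : q t = q t' := mul_left_cancel (h.trans h'.symm)
      rw [hqinj this]
    have h3 : {z : W × W | (p z.1)⁻¹ * q z.2 = γ ∧ z.1 < z.2}.Subsingleton := by
      rintro ⟨s, t⟩ ⟨h, hlt : s < t⟩ ⟨s', t'⟩ ⟨h', hlt' : s' < t'⟩
      change (p s)⁻¹ * q t = γ at h
      change (p s')⁻¹ * q t' = γ at h'
      have htt : t = t' := by
        by_contra hne
        rcases lt_or_gt_of_ne hne with k | k
        · exact hf2' t' s' s t hlt' (hlt.trans k) k (by rw [h, h'])
        · exact hf2' t s s' t' hlt (hlt'.trans k) k (by rw [h, h'])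
      subst htt
      have : p s = p s' := inv_injective (mul_right_cancel (h.trans h'.symm))
      rw [hpinj this]
    refine ((h1.finite.union h2.finite).union h3.finite).subset ?_
    rintro ⟨s, t⟩ h
    rcases lt_trichotomy s t with k | k | k
    · exact Or.inr ⟨h, k⟩
    · exact Or.inl (Or.inl ⟨h, k⟩)
    · exact Or.inl (Or.inr ⟨h, k⟩)
  refine Set.Finite.of_finite_image (f := fun z : (G × G) × (G × G) => (e.symm z.1, e.symm z.2))
    (hfin.subset ?_) ?_
  · rintro _ ⟨⟨z, w⟩, hz, rfl⟩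
    simpa [hp, hq, A, B] using hz
  · rintro ⟨z, w⟩ - ⟨z', w'⟩ - h
    simpa using h

end Construction

section Main

variable {G : Type u} [Group G]

lemma entourage_mem {A : Set G} (h1 : #A < #G) (h2 : (1 : G) ∈ A) (h3 : A = A⁻¹) :
    entourage A ∈ entourages G := ⟨A, h1, h2, h3, Subset.rfl⟩

/-! ### Sanity check: the hypothesis of the main theorem is satisfiable -/

/-- The ball of radius `n` about `0` in `ℤ`. -/
def zball (n : ℕ) : Set (Multiplicative ℤ) := {g | |Multiplicative.toAdd g| ≤ n}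

lemma zball_finite (n : ℕ) : (zball n).Finite := by
  have h : (Set.Icc (-(n : ℤ)) n).Finite := Set.finite_Icc _ _
  refine (h.image Multiplicative.ofAdd).subset ?_
  intro g hg
  exact ⟨Multiplicative.toAdd g, abs_le.1 hg, rfl⟩

lemma zball_mul {m n : ℕ} {x y : Multiplicative ℤ} (hx : x ∈ zball m) (hy : y ∈ zball n) :
    x * y ∈ zball (m + n) := by
  change |Multiplicative.toAdd x + Multiplicative.toAdd y| ≤ ((m + n : ℕ) : ℤ)
  have hx' : |Multiplicative.toAdd x| ≤ (m : ℤ) := hx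
  have hy' : |Multiplicative.toAdd y| ≤ (n : ℤ) := hy
  have := abs_add_le (Multiplicative.toAdd x) (Multiplicative.toAdd y)
  push_cast
  linarith

lemma zball_inv {m : ℕ} {x : Multiplicative ℤ} (hx : x ∈ zball m) : x⁻¹ ∈ zball m := by
  change |-Multiplicative.toAdd x| ≤ (m : ℤ)
  rw [abs_neg]
  exact hx

lemma zball_mono {m n : ℕ} (h : m ≤ n) {x : Multiplicative ℤ} (hx : x ∈ zball m) :
    x ∈ zball n := by
  have hx' : |Multiplicative.toAdd x| ≤ (m : ℤ) := hx
  have h' : (m : ℤ) ≤ n := by exact_mod_cast h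
  exact hx'.trans h'

lemma exists_zball {A : Set (Multiplicative ℤ)} (hA : A.Finite) : ∃ m, A ⊆ zball m := by
  induction A, hA using Set.Finite.induction_on with
  | empty => exact ⟨0, Set.empty_subset _⟩
  | @insert a s _ _ ih =>
    obtain ⟨m, hm⟩ := ih
    refine ⟨max m (Multiplicative.toAdd a).natAbs, ?_⟩
    rintro x (rfl | hx)
    · change |Multiplicative.toAdd x| ≤ ((max m (Multiplicative.toAdd x).natAbs : ℕ) : ℤ)
      have : ((Multiplicative.toAdd x).natAbs : ℤ) ≤
          ((max m (Multiplicative.toAdd x).natAbs : ℕ) : ℤ) := by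
        exact_mod_cast le_max_right _ _
      rwa [Int.natCast_natAbs] at this
    · exact zball_mono (le_max_left _ _) (hm hx)

lemma bounded_int {S : Set (Multiplicative ℤ)} : Bounded S ↔ S.Finite := by
  unfold Bounded
  rw [show #(Multiplicative ℤ) = ℵ₀ from Cardinal.mk_eq_aleph0 _, Cardinal.lt_aleph0_iff_set_finite]

/-- The hypothesis `NormalBallean` is satisfiable: the ballean of `ℤ` is normal. -/
lemma normalBallean_int : NormalBallean (Multiplicative ℤ) := by
  intro P Q hPQ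
  -- `P` and `Q` have finite intersections of balls
  have hfin : ∀ m : ℕ, {y | (∃ p ∈ P, ∃ g ∈ zball m, y = p * g) ∧
      ∃ q ∈ Q, ∃ g ∈ zball m, y = q * g}.Finite := by
    intro m
    have hE : entourage (zball m) ∈ entourages (Multiplicative ℤ) := by
      refine entourage_mem (bounded_int.2 (zball_finite m)) ?_ ?_
      · change |(0 : ℤ)| ≤ m
        simp
      · ext x
        exact ⟨fun hx => zball_inv hx, fun hx => by simpa using zball_inv hx⟩
    refine (bounded_int.1 (hPQ _ hE)).subset ?_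
    rintro y ⟨⟨p, hp, g, hg, rfl⟩, ⟨q, hq, g', hg', h⟩⟩
    exact ⟨⟨p, hp, g, hg, rfl⟩, ⟨q, hq, g', hg', h⟩⟩
  have key : ∀ (P Q : Set (Multiplicative ℤ)), (∀ m : ℕ,
      {y | (∃ p ∈ P, ∃ g ∈ zball m, y = p * g) ∧ ∃ q ∈ Q, ∃ g ∈ zball m, y = q * g}.Finite) →
      IsAsymptoticNeighbourhood {x | ∃ n : ℕ, (∃ p ∈ P, ∃ g ∈ zball n, x = p * g) ∧
        ¬ ∃ q ∈ Q, ∃ g ∈ zball (2 * n), x = q * g} P := by
    intro P Q hfin E hE
    obtain ⟨A, hA, -, -, hEA⟩ := hE
    obtain ⟨m, hm⟩ := exists_zball (bounded_int.1 hA)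
    rw [bounded_int]
    refine (hfin (2 * m)).subset ?_
    rintro y ⟨⟨p, hp, hpy⟩, hyU⟩
    obtain ⟨g, hg, h⟩ := hEA hpy
    have hPm : ∃ p ∈ P, ∃ g ∈ zball m, y = p * g := ⟨p, hp, g, hm hg, h⟩
    refine ⟨⟨p, hp, g, zball_mono (by omega) (hm hg), h⟩, ?_⟩
    by_contra hcon
    exact hyU ⟨m, hPm, hcon⟩
  refine ⟨_, _, key P Q hfin, key Q P (fun m => (hfin m).subset ?_), ?_⟩
  · rintro y ⟨h1, h2⟩
    exact ⟨h2, h1⟩
  · intro E hE
    obtain ⟨A, hA, -, -, hEA⟩ := hE
    obtain ⟨m, hm⟩ := exists_zball (bounded_int.1 hA)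
    rw [bounded_int]
    refine (hfin (3 * m)).subset ?_
    rintro y ⟨⟨u, ⟨n, ⟨p, hp, g, hg, rfl⟩, hnQ⟩, huy⟩, ⟨v, ⟨k, ⟨q, hq, g', hg', rfl⟩, hkP⟩, hvy⟩⟩
    obtain ⟨α, hα, h1⟩ := hEA huy
    obtain ⟨β, hβ, h2⟩ := hEA hvy
    change y = p * g * α at h1
    change y = q * g' * β at h2
    have hα' := hm hα
    have hβ' := hm hβ
    have c1 : 2 * n < k + (m + m) := by
      by_contra hcon
      push Not at hcon
      exact hnQ ⟨q, hq, g' * (β * α⁻¹), zball_mono hcon (zball_mul hg' (zball_mul hβ'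
        (zball_inv hα'))), by
          have : p * g = y * α⁻¹ := by rw [h1]; group
          rw [this, h2]; group⟩
    have c2 : 2 * k < n + (m + m) := by
      by_contra hcon
      push Not at hcon
      exact hkP ⟨p, hp, g * (α * β⁻¹), zball_mono hcon (zball_mul hg (zball_mul hα'
        (zball_inv hβ'))), by
          have : q * g' = y * β⁻¹ := by rw [h2]; group
          rw [this, h1]; group⟩
    refine ⟨⟨p, hp, g * α, zball_mono (by omega) (zball_mul hg hα'), by rw [h1, mul_assoc]⟩,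
      ⟨q, hq, g' * β, zball_mono (by omega) (zball_mul hg' hβ'), by rw [h2, mul_assoc]⟩⟩

/-- If `|G|` is singular and `U` is an asymptotic neighbourhood of `P`, then the cardinalities of
the sets `P g \ U`, `g ∈ G`, are bounded by one cardinal `< |G|`. -/
lemma uniform_bound [Infinite G] (hs : (#G).ord.cof < #G) {P U : Set G}
    (hU : IsAsymptoticNeighbourhood U P) :
    ∃ l < #G, ∀ g : G, #(((fun y => y * g) '' P) \ U : Set G) ≤ l := by
  have hG : ℵ₀ ≤ #G := Cardinal.aleph0_le_mk G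
  by_contra hcon
  push Not at hcon
  obtain ⟨ι, k, hι, hk, hcof⟩ := exists_small_cofinal hs
  choose g hg using fun i => hcon (k i) (hk i)
  let A : Set G := (Set.range g ∪ (Set.range g)⁻¹) ∪ {1}
  have hr : #(Set.range g) < #G := lt_of_le_of_lt Cardinal.mk_range_le hι
  have hA : #A < #G := by
    refine lt_of_le_of_lt (Cardinal.mk_union_le _ _) (Cardinal.add_lt_of_lt hG
      (lt_of_le_of_lt (Cardinal.mk_union_le _ _) (Cardinal.add_lt_of_lt hG hr ?_)) ?_)
    · rwa [Cardinal.mk_inv]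
    · rw [Cardinal.mk_singleton]
      exact lt_of_lt_of_le Cardinal.one_lt_aleph0 hG
  have hA1 : (1 : G) ∈ A := Or.inr rfl
  have hAinv : A = A⁻¹ := by
    simp only [A, Set.union_inv, inv_inv, Set.inv_singleton, inv_one]
    rw [Set.union_comm (Set.range g)]
  have hE := hU _ (entourage_mem hA hA1 hAinv)
  unfold Bounded at hE
  obtain ⟨i, hi⟩ := hcof _ hE
  have hsub : ((fun y => y * g i) '' P) \ U ⊆ ball (entourage A) P \ U := by
    rintro _ ⟨⟨y, hy, rfl⟩, hyU⟩
    exact ⟨⟨y, hy, g i, Or.inl (Or.inl ⟨i, rfl⟩), rfl⟩, hyU⟩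
  have := Cardinal.mk_le_mk_of_subset hsub
  exact absurd (hg i) (not_lt.2 (this.trans hi))

/-- **Main theorem.** If the ballean of an infinite group `G` determined by the subsets of
cardinality `< |G|` is normal, then `|G|` is a regular cardinal. -/
theorem result (G : Type u) [Group G] [Infinite G] (hG : NormalBallean G) : (#G).IsRegular := by
  have h0 : ℵ₀ ≤ #G := Cardinal.aleph0_le_mk G
  by_contra hreg
  have hs : (#G).ord.cof < #G := by
    by_contra h
    exact hreg ⟨h0, not_lt.1 h⟩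
  have h0' : ℵ₀ < #G := by
    rcases h0.lt_or_eq with h | h
    · exact h
    · exact absurd (h ▸ Cardinal.isRegular_aleph0) hreg
  have hsucc : ∀ l < #G, ℵ₀ ≤ l → Order.succ l < #G := by
    intro l hl hl0
    rcases (Order.succ_le_of_lt hl).lt_or_eq with h | h
    · exact h
    · exact absurd (h ▸ Cardinal.isRegular_succ hl0) hreg
  obtain ⟨a, b, x, hx, hfin⟩ := main_construction (G := G)
  let P : Set G := Set.range (fun z : G × G => x z * (a z.1)⁻¹)
  let Q : Set G := Set.range (fun z : G × G => x z * (b z.2)⁻¹)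
  have hPQ : AsymptoticallyDisjoint P Q := by
    rintro E ⟨A, hA, -, -, hEA⟩
    unfold Bounded
    have hsub : ball E P ∩ ball E Q ⊆ ⋃ r : A × A,
        (fun z : (G × G) × (G × G) => x z.1 * (a z.1.1)⁻¹ * (r.1 : G)) ''
        {z : (G × G) × (G × G) | (x z.1 * (a z.1.1)⁻¹)⁻¹ * (x z.2 * (b z.2.2)⁻¹) =
          (r.1 : G) * (r.2 : G)⁻¹} := by
      rintro y ⟨⟨_, ⟨z, rfl⟩, hz⟩, ⟨_, ⟨w, rfl⟩, hw⟩⟩
      obtain ⟨α, hα, hyα⟩ := hEA hz
      obtain ⟨β, hβ, hyβ⟩ := hEA hw
      change y = x z * (a z.1)⁻¹ * α at hyα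
      change y = x w * (b w.2)⁻¹ * β at hyβ
      rw [Set.mem_iUnion]
      refine ⟨(⟨α, hα⟩, ⟨β, hβ⟩), (z, w), ?_, hyα.symm⟩
      change (x z * (a z.1)⁻¹)⁻¹ * (x w * (b w.2)⁻¹) = α * β⁻¹
      have e1 : x z * (a z.1)⁻¹ = y * α⁻¹ := by rw [hyα]; group
      have e2 : x w * (b w.2)⁻¹ = y * β⁻¹ := by rw [hyβ]; group
      rw [e1, e2]
      group
    refine lt_of_le_of_lt (Cardinal.mk_le_mk_of_subset hsub) ?_
    refine lt_of_le_of_lt (Cardinal.mk_iUnion_le _) ?_
    have hprod : #(A × A) < #G := by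
      rw [Cardinal.mk_prod]
      simp only [Cardinal.lift_id]
      exact Cardinal.mul_lt_of_lt h0 hA hA
    refine Cardinal.mul_lt_of_lt h0 hprod (lt_of_le_of_lt ?_ h0')
    apply ciSup_le'
    intro r
    exact Cardinal.mk_le_aleph0_iff.2 ((hfin _).image _).countable
  obtain ⟨U, V, hU, hV, hUV⟩ := hG P Q hPQ
  obtain ⟨l₁, hl₁, hUl⟩ := uniform_bound hs hU
  obtain ⟨l₂, hl₂, hVl⟩ := uniform_bound hs hV
  -- one bound for both
  set l : Cardinal.{u} := max (max l₁ l₂) ℵ₀ with hl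
  have hlG : l < #G := max_lt (max_lt hl₁ hl₂) h0'
  have hl0 : ℵ₀ ≤ l := le_max_right _ _
  have hl1 : l₁ ≤ l := (le_max_left _ _).trans (le_max_left _ _)
  have hl2 : l₂ ≤ l := (le_max_right _ _).trans (le_max_left _ _)
  have hsl := hsucc l hlG hl0
  obtain ⟨A', hA'⟩ := Cardinal.le_mk_iff_exists_set.1 hsl.le
  -- the bad `h`
  let N : Set G := ⋃ g : A', {h : G | x ((g : G), h) ∉ U}
  have hN : #N < #G := by
    refine lt_of_le_of_lt (Cardinal.mk_iUnion_le _) ?_
    refine Cardinal.mul_lt_of_lt h0 (by rw [hA']; exact hsl) (lt_of_le_of_lt ?_ hlG)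
    apply ciSup_le'
    rintro ⟨g, hg⟩
    refine le_trans ?_ ((hUl (a g)).trans hl1)
    refine Cardinal.mk_le_of_injective (f := fun h : {h : G | x (g, h) ∉ U} =>
      (⟨x (g, (h : G)), ?_, h.2⟩ : (((fun y => y * a g) '' P) \ U : Set G))) ?_
    · exact ⟨x (g, (h : G)) * (a g)⁻¹, ⟨(g, (h : G)), rfl⟩, by simp⟩
    · intro h h' hh
      have h1 : x (g, (h : G)) = x (g, (h' : G)) := congrArg Subtype.val hh
      have h2 := hx h1
      exact Subtype.ext (Prod.ext_iff.1 h2).2
  have hNc : #(Nᶜ : Set G) = #G := Cardinal.mk_compl_of_infinite N hN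
  have hgood : ∀ h : (Nᶜ : Set G), ∃ g ∈ A', x (g, (h : G)) ∈ V := by
    intro h
    by_contra hcon
    push Not at hcon
    have hle : #A' ≤ l := by
      refine le_trans ?_ ((hVl (b h)).trans hl2)
      refine Cardinal.mk_le_of_injective (f := fun g : A' =>
        (⟨x ((g : G), (h : G)), ?_, hcon g g.2⟩ : (((fun y => y * b h) '' Q) \ V : Set G))) ?_
      · exact ⟨x ((g : G), (h : G)) * (b h)⁻¹, ⟨((g : G), (h : G)), rfl⟩, by simp⟩
      · intro g g' hh
        have h1 : x ((g : G), (h : G)) = x ((g' : G), (h : G)) := congrArg Subtype.val hh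
        have h2 := hx h1
        exact Subtype.ext (Prod.ext_iff.1 h2).1
    rw [hA'] at hle
    exact absurd (Order.lt_succ l) (not_lt.2 hle)
  choose g hgA hgV using hgood
  have hgU : ∀ h : (Nᶜ : Set G), x (g h, (h : G)) ∈ U := by
    intro h
    by_contra hcon
    exact h.2 (Set.mem_iUnion.2 ⟨⟨g h, hgA h⟩, hcon⟩)
  have hUVcard : #G ≤ #(U ∩ V : Set G) := by
    rw [← hNc]
    refine Cardinal.mk_le_of_injective (f := fun h : (Nᶜ : Set G) =>
      (⟨x (g h, (h : G)), hgU h, hgV h⟩ : (U ∩ V : Set G))) ?_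
    intro h h' hh
    have h1 : x (g h, (h : G)) = x (g h', (h' : G)) := congrArg Subtype.val hh
    have h2 := hx h1
    exact Subtype.ext (Prod.ext_iff.1 h2).2
  have hE : entourage ({1} : Set G) ∈ entourages G := by
    refine entourage_mem ?_ rfl (by simp)
    rw [Cardinal.mk_singleton]
    exact lt_of_lt_of_le Cardinal.one_lt_aleph0 h0
  have hfinal := hUV _ hE
  unfold Bounded at hfinal
  refine absurd hfinal (not_lt.2 (hUVcard.trans (Cardinal.mk_le_mk_of_subset ?_)))
  rintro y ⟨hyU, hyV⟩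
  exact ⟨⟨y, hyU, 1, rfl, by simp⟩, ⟨y, hyV, 1, rfl, by simp⟩⟩

end Main

end Pool.Agent.Results.MP_08c285_gt.SingularNotNormal
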